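import Pool.Agent.Helper10.ARM.Final

open Pool.Agent.Helper10.ARM

namespace Pool.Agent.Results.MP_ac4f8b_gt.BodiesOfRevolution

/-- Let `S` be the boundary of a convex body of revolution (with smooth meridian of positive
radius of curvature). If `S` has constant width `w` and every unit speed geodesic of `S` is closed,
then `S` is a round sphere, of radius `w / 2`. -/
theorem result {r z R : ℝ → ℝ} (h : IsMeridian r z R) {w : ℝ} (hw : HasWidth (surf r z) w)
    (hc : AllClosed (surf r z)) : ∃ q : E3, surf r z = Metric.sphere q (w / 2) :=
  main h hw hc

end Pool.Agent.Results.MP_ac4f8b_gt.BodiesOfRevolution
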